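import Pool.Agent.W759.TR.Defs

set_option autoImplicit false

/-! Part TR-T4a: splitting houses along gaps does not change the law. -/

namespace Pool.Agent.W91.TR

open MeasureTheory ProbabilityTheory
open scoped ENNReal Topology
open Pool.Agent.W759.FD (house rs)
open Pool.Agent.W759.TR

variable {I E : Type}

lemma meas_ev (D : Finset E) (p : E → Prop) (j : E → ℕ) (B : E → Set Bool) :
    MeasurableSet {h : ℕ → Bool | ∀ e ∈ D, p e → h (j e) ∈ B e} := by
  have : {h : ℕ → Bool | ∀ e ∈ D, p e → h (j e) ∈ B e}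
      = ⋂ e ∈ D, ⋂ (_ : p e), (fun h : ℕ → Bool => h (j e)) ⁻¹' (B e) := by
    ext h
    simp
  rw [this]
  refine Finset.measurableSet_biInter D ?_
  intro e _
  refine MeasurableSet.iInter ?_
  intro _
  exact (measurable_pi_apply (j e)) (Set.Finite.measurableSet (Set.toFinite _))

lemma meas_ev' (A : Set ℕ) (D : Finset E) (p : E → Prop) (j : E → ℕ) (B : E → Set Bool) :
    MeasurableSet {x : A → Bool | ∀ e ∈ D, ∀ a : A, (a : ℕ) = j e → p e → x a ∈ B e} := by
  have : {x : A → Bool | ∀ e ∈ D, ∀ a : A, (a : ℕ) = j e → p e → x a ∈ B e}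
      = ⋂ e ∈ D, ⋂ a : A, ⋂ (_ : (a : ℕ) = j e), ⋂ (_ : p e),
        (fun x : A → Bool => x a) ⁻¹' (B e) := by
    ext h
    simp
  rw [this]
  refine Finset.measurableSet_biInter D ?_
  intro e _
  refine MeasurableSet.iInter ?_
  intro a
  refine MeasurableSet.iInter ?_
  intro _
  refine MeasurableSet.iInter ?_
  intro _
  exact (measurable_pi_apply a) (Set.Finite.measurableSet (Set.toFinite _))

open Classical in
/-- One house: classes at distance more than one are independent. -/
lemma one_house (h0 : H0) (m : ℕ) (hm : 0 < m) (D : Finset E) (G : E → I) (j : E → ℕ)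
    (B : E → Set Bool)
    (hG : ∀ e ∈ D, ∀ e' ∈ D, G e ≠ G e' → 1 < |(j e : ℤ) - (j e' : ℤ)|) (S : Finset I) :
    house m {h | ∀ e ∈ D, G e ∈ S → h (j e) ∈ B e}
      = ∏ i ∈ S, house m {h | ∀ e ∈ D, G e = i → h (j e) ∈ B e} := by
  have : IsProbabilityMeasure (house m) := h0.1 m hm
  induction S using Finset.induction_on with
  | empty =>
    simp
  | insert i0 S hi ih =>
    rw [Finset.prod_insert hi, ← ih]
    set A1 : Set ℕ := {k | ∃ e ∈ D, G e = i0 ∧ k = j e} with hA1
    set A2 : Set ℕ := {k | ∃ e ∈ D, G e ∈ S ∧ k = j e} with hA2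
    have hind := h0.2.2.1 m hm A1 A2 (by
      rintro k ⟨e, he, hge, rfl⟩ k' ⟨e', he', hge', rfl⟩
      apply hG e he e' he'
      intro heq
      apply hi
      rw [← hge, heq]
      exact hge')
    have key := hind.measure_inter_preimage_eq_mul
      {x : A1 → Bool | ∀ e ∈ D, ∀ a : A1, (a : ℕ) = j e → G e = i0 → x a ∈ B e}
      {x : A2 → Bool | ∀ e ∈ D, ∀ a : A2, (a : ℕ) = j e → G e ∈ S → x a ∈ B e}
      (meas_ev' A1 D (fun e => G e = i0) j B) (meas_ev' A2 D (fun e => G e ∈ S) j B)
    have e1 : (rs (T := Bool) A1) ⁻¹'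
        {x : A1 → Bool | ∀ e ∈ D, ∀ a : A1, (a : ℕ) = j e → G e = i0 → x a ∈ B e}
        = {h | ∀ e ∈ D, G e = i0 → h (j e) ∈ B e} := by
      ext h
      constructor
      · intro hx e he hge
        exact hx e he ⟨j e, e, he, hge, rfl⟩ rfl hge
      · intro hx e he a ha hge
        change h (a : ℕ) ∈ B e
        rw [ha]
        exact hx e he hge
    have e2 : (rs (T := Bool) A2) ⁻¹'
        {x : A2 → Bool | ∀ e ∈ D, ∀ a : A2, (a : ℕ) = j e → G e ∈ S → x a ∈ B e}
        = {h | ∀ e ∈ D, G e ∈ S → h (j e) ∈ B e} := by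
      ext h
      constructor
      · intro hx e he hge
        exact hx e he ⟨j e, e, he, hge, rfl⟩ rfl hge
      · intro hx e he a ha hge
        change h (a : ℕ) ∈ B e
        rw [ha]
        exact hx e he hge
    rw [e1, e2] at key
    rw [← key]
    congr 1
    ext h
    constructor
    · intro hx
      exact ⟨fun e he hge => hx e he (by rw [hge]; exact Finset.mem_insert_self _ _),
        fun e he hge => hx e he (Finset.mem_insert_of_mem hge)⟩
    · rintro ⟨h1, h2⟩ e he hge
      rcases Finset.mem_insert.mp hge with hc | hc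
      · exact h1 e he hc
      · exact h2 e he hc

open Classical in
/-- Product formula for boxes. -/
lemma box (sc : I → ℕ) (hP : ∀ i, IsProbabilityMeasure (house (sc i + 1))) (F : E → I)
    (j : E → ℕ) (D : Finset E) (B : E → Set Bool) :
    (Measure.infinitePi (fun i : I => house (sc i + 1)))
      {H | ∀ e ∈ D, H (F e) (j e) ∈ B e}
      = ∏ i ∈ D.image F, house (sc i + 1) {h | ∀ e ∈ D, F e = i → h (j e) ∈ B e} := by
  have := hP
  rw [← Measure.infinitePi_pi (fun i : I => house (sc i + 1))
    (s := D.image F) (t := fun i => {h | ∀ e ∈ D, F e = i → h (j e) ∈ B e})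
    (fun i _ => meas_ev D (fun e => F e = i) j B)]
  congr 1
  ext H
  simp only [Set.mem_pi, Finset.coe_image, Set.mem_image, Finset.mem_coe, Set.mem_ofPred_eq]
  constructor
  · rintro hx i ⟨e0, he0, rfl⟩ e he hF
    rw [← hF]
    exact hx e he
  · intro hx e he
    exact hx (F e) ⟨e, he, rfl⟩ e he rfl

lemma meas_map (F : E → I) (j : E → ℕ) :
    Measurable (fun (H : I → ℕ → Bool) (e : E) => H (F e) (j e)) := by
  refine measurable_pi_lambda _ ?_
  intro e
  exact (measurable_pi_apply (j e)).comp (measurable_pi_apply (F e))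

theorem t4a : T4a := by
  classical
  intro h0 I E _ sc F1 F2 j hsc hF hgap
  have hP : ∀ i, IsProbabilityMeasure (house (sc i + 1)) := fun i => h0.1 _ (Nat.succ_pos _)
  have := hP
  have : IsProbabilityMeasure ((Measure.infinitePi (fun i : I => house (sc i + 1))).map
      (fun (H : I → ℕ → Bool) (e : E) => H (F1 e) (j e))) :=
    Measure.isProbabilityMeasure_map (meas_map F1 j).aemeasurable
  have : IsProbabilityMeasure ((Measure.infinitePi (fun i : I => house (sc i + 1))).map
      (fun (H : I → ℕ → Bool) (e : E) => H (F2 e) (j e))) :=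
    Measure.isProbabilityMeasure_map (meas_map F2 j).aemeasurable
  refine ext_of_generate_finite
    (squareCylinders (fun _ : E => {s : Set Bool | MeasurableSet s}))
    generateFrom_squareCylinders.symm
    (isPiSystem_squareCylinders (fun _ => MeasurableSpace.isPiSystem_measurableSet)
      (fun _ => by rw [Set.mem_ofPred_eq]; exact MeasurableSet.univ)) ?_ (by simp)
  rintro s ⟨D, B, -, rfl⟩
  have hms : MeasurableSet ((D : Set E).pi B) :=
    MeasurableSet.pi D.countable_toSet
      (fun i _ => Set.Finite.measurableSet (Set.toFinite _))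
  rw [Measure.map_apply (meas_map F1 j) hms, Measure.map_apply (meas_map F2 j) hms]
  have e1 : (fun (H : I → ℕ → Bool) (e : E) => H (F1 e) (j e)) ⁻¹' ((D : Set E).pi B)
      = {H | ∀ e ∈ D, H (F1 e) (j e) ∈ B e} := by
    ext H
    simp [Set.mem_pi]
  have e2 : (fun (H : I → ℕ → Bool) (e : E) => H (F2 e) (j e)) ⁻¹' ((D : Set E).pi B)
      = {H | ∀ e ∈ D, H (F2 e) (j e) ∈ B e} := by
    ext H
    simp [Set.mem_pi]
  rw [e1, e2, box sc hP F1 j D B, box sc hP F2 j D B]
  have hdec : D.image F2 = (D.image F1).biUnion (fun i => (D.filter (fun e => F1 e = i)).image F2) := by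
    ext i'
    simp only [Finset.mem_image, Finset.mem_biUnion, Finset.mem_filter]
    constructor
    · rintro ⟨e, he, rfl⟩
      exact ⟨F1 e, ⟨e, he, rfl⟩, e, ⟨he, rfl⟩, rfl⟩
    · rintro ⟨i, -, e, ⟨he, -⟩, rfl⟩
      exact ⟨e, he, rfl⟩
  rw [hdec, Finset.prod_biUnion]
  · refine Finset.prod_congr rfl ?_
    intro i hi
    have h1 := one_house h0 (sc i + 1) (Nat.succ_pos _) (D.filter (fun e => F1 e = i)) F2 j B
      (by
        intro e he e' he' hne
        apply hgap e e' _ hne
        rw [(Finset.mem_filter.mp he).2, (Finset.mem_filter.mp he').2])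
      ((D.filter (fun e => F1 e = i)).image F2)
    have h2 : {h : ℕ → Bool | ∀ e ∈ D, F1 e = i → h (j e) ∈ B e}
        = {h | ∀ e ∈ D.filter (fun e => F1 e = i),
          F2 e ∈ (D.filter (fun e => F1 e = i)).image F2 → h (j e) ∈ B e} := by
      ext h
      constructor
      · intro hx e he _
        exact hx e (Finset.mem_filter.mp he).1 (Finset.mem_filter.mp he).2
      · intro hx e he hFe
        have hm : e ∈ D.filter (fun e => F1 e = i) := Finset.mem_filter.mpr ⟨he, hFe⟩
        exact hx e hm (Finset.mem_image_of_mem _ hm)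
    rw [h2, h1]
    refine Finset.prod_congr rfl ?_
    intro i' hi'
    obtain ⟨e0, he0, rfl⟩ := Finset.mem_image.mp hi'
    obtain ⟨he0D, he0i⟩ := Finset.mem_filter.mp he0
    have hs : sc (F2 e0) = sc i := by rw [← hsc e0, he0i]
    rw [hs]
    congr 1
    ext h
    constructor
    · intro hx e he hFe
      exact hx e (Finset.mem_filter.mpr ⟨he, by rw [hF e e0 hFe, he0i]⟩) hFe
    · intro hx e he hFe
      exact hx e (Finset.mem_filter.mp he).1 hFe
  · intro i hi i2 hi2 hne
    rw [Function.onFun, Finset.disjoint_left]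
    intro a ha ha2
    obtain ⟨e, he, rfl⟩ := Finset.mem_image.mp ha
    obtain ⟨e', he', hee⟩ := Finset.mem_image.mp ha2
    apply hne
    rw [← (Finset.mem_filter.mp he).2, ← (Finset.mem_filter.mp he').2]
    exact hF e e' hee.symm

end Pool.Agent.W91.TR
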